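import Pool.Agent.Helper94.RT.Defs

/-!
# RT, leaf ISO-B: critical zeros of real analytic solutions of `Δ f = V f` in the plane are isolated

`ib_star`: if `g` is analytic at `0` and `g = O(|y| ^ (n + 1))`, then the derivative is `O(|y| ^ n)`. `ib_main`: if `u` is real analytic,
`u = O(|w| ^ k)` and the Cauchy-Riemann operator `wb u` is `O(|w| ^ k)`, then `u = c w ^ k + O(|w| ^ (k + 1))`. `statB`: apply this to
`u = f_x - i f_y`; `c = 0` would give a higher order of vanishing of `f`.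
-/

set_option autoImplicit false

open Filter Asymptotics
open scoped ContDiff Topology ENNReal

namespace Pool.Agent.Helper99.RS

section star

variable {E₁ F₁ : Type} [NormedAddCommGroup E₁] [NormedSpace ℝ E₁] [NormedAddCommGroup F₁] [NormedSpace ℝ F₁]

theorem ib_mono {g : E₁ → F₁} {m n : ℕ} (hmn : m ≤ n) (h : g =O[𝓝 0] fun y => ‖y‖ ^ n) :
    g =O[𝓝 0] fun y => ‖y‖ ^ m := by
  refine h.trans (IsBigO.of_bound 1 ?_)
  filter_upwards [Metric.ball_mem_nhds (0 : E₁) one_pos] with y hy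
  rw [mem_ball_zero_iff] at hy
  rw [one_mul, norm_pow, norm_pow, norm_norm]
  exact pow_le_pow_of_le_one (norm_nonneg y) hy.le hmn

theorem ib_diag {p : FormalMultilinearSeries ℝ E₁ F₁} {g : E₁ → F₁} (hp : HasFPowerSeriesAt g p 0) {n : ℕ}
    (h : g =O[𝓝 0] fun y => ‖y‖ ^ (n + 1)) (k : ℕ) : k ≤ n → ∀ y : E₁, (p k fun _ => y) = 0 := by
  refine Nat.strong_induction_on k fun k hk hkn => ?_
  have psum_eq : ∀ y, p.partialSum (k + 1) y = p k fun _ => y := by
    intro y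
    refine Finset.sum_eq_single _ (fun b hb hnb => ?_) fun hn => ?_
    · have h1 := Finset.mem_range_succ_iff.mp hb
      exact hk b (h1.lt_of_ne hnb) (h1.trans hkn) y
    · exact False.elim (hn (Finset.mem_range.mpr (lt_add_one k)))
  have h1 := hp.isBigO_sub_partialSum_pow (k + 1)
  have h2 : (fun y : E₁ => p k fun _ => y) =O[𝓝 0] fun y => ‖y‖ ^ (k + 1) := by
    have h3 : (fun y : E₁ => p k fun _ => y) = fun y => g y - (g (0 + y) - p.partialSum (k + 1) y) := by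
      funext y
      rw [psum_eq, zero_add]
      abel
    rw [h3]
    exact (ib_mono (by omega) h).sub h1
  exact h2.continuousMultilinearMap_apply_eq_zero

theorem ib_star [CompleteSpace F₁] {g : E₁ → F₁} (hg : AnalyticAt ℝ g 0) {n : ℕ}
    (h : g =O[𝓝 0] fun y => ‖y‖ ^ (n + 1)) : (fderiv ℝ g) =O[𝓝 0] fun y => ‖y‖ ^ n := by
  obtain ⟨p, r, hp⟩ := hg
  obtain ⟨p', hp'⟩ : ∃ p' : FormalMultilinearSeries ℝ E₁ F₁, p' = fun k => if k ≤ n then 0 else p k := ⟨_, rfl⟩
  have hle : p.radius ≤ p'.radius := by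
    refine FormalMultilinearSeries.radius_le_of_le fun k => ?_
    rw [hp']
    dsimp only
    split_ifs
    · rw [norm_zero]
      exact norm_nonneg _
    · exact le_rfl
  have hq : HasFPowerSeriesOnBall g p' 0 r := by
    refine ⟨hp.r_le.trans hle, hp.r_pos, fun {y} hy => ?_⟩
    have h1 := hp.hasSum hy
    have h2 : (fun k => p' k fun _ : Fin k => y) = fun k => p k fun _ : Fin k => y := by
      funext k
      rw [hp']
      dsimp only
      split_ifs with hk
      · rw [ib_diag hp.hasFPowerSeriesAt h k hk y]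
        rfl
      · rfl
    rw [h2]
    exact h1
  have h3 := hq.fderiv.hasFPowerSeriesAt.isBigO_sub_partialSum_pow n
  have h4 : ∀ y, p'.derivSeries.partialSum n y = 0 := by
    intro y
    refine Finset.sum_eq_zero fun k hk => ?_
    have h5 : p' (k + 1) = 0 := by
      rw [hp']
      dsimp only
      rw [if_pos (by have := Finset.mem_range.1 hk; omega)]
    rw [FormalMultilinearSeries.derivSeries_eq_zero _ h5]
    rfl
  simp only [h4, zero_add, sub_zero] at h3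
  exact h3

theorem ib_mvt {g : E₁ → F₁} (hg : ∀ᶠ y in 𝓝 (0 : E₁), DifferentiableAt ℝ g y) (h0 : g 0 = 0) {n : ℕ}
    (h : (fderiv ℝ g) =O[𝓝 0] fun y => ‖y‖ ^ n) : g =O[𝓝 0] fun y => ‖y‖ ^ (n + 1) := by
  obtain ⟨C, hC⟩ := h.bound
  obtain ⟨δ, hδ, hδ2⟩ := Metric.eventually_nhds_iff_ball.1 (hC.and hg)
  refine IsBigO.of_bound C ?_
  filter_upwards [Metric.ball_mem_nhds (0 : E₁) hδ] with y hy
  have hC0 : 0 ≤ C * ‖‖y‖ ^ n‖ := (norm_nonneg _).trans (hδ2 y hy).1
  have hsub : Metric.closedBall (0 : E₁) ‖y‖ ⊆ Metric.ball 0 δ := by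
    intro x hx
    rw [mem_closedBall_zero_iff] at hx
    rw [mem_ball_zero_iff] at hy ⊢
    exact hx.trans_lt hy
  rcases eq_or_ne y 0 with rfl | hy0
  · rw [h0, norm_zero]
    simp
  have hCn : 0 ≤ C := by
    by_contra hcon
    push Not at hcon
    have h1 : 0 < ‖‖y‖ ^ n‖ := norm_pos_iff.2 (pow_ne_zero n (norm_ne_zero_iff.2 hy0))
    nlinarith
  have h2 := (convex_closedBall (0 : E₁) ‖y‖).norm_image_sub_le_of_norm_fderiv_le (𝕜 := ℝ) (f := g)
    (C := C * ‖y‖ ^ n) (fun x hx => (hδ2 x (hsub hx)).2) (fun x hx => by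
      refine ((hδ2 x (hsub hx)).1).trans ?_
      rw [norm_pow, norm_norm]
      rw [mem_closedBall_zero_iff] at hx
      gcongr) (Metric.mem_closedBall_self (norm_nonneg y)) (mem_closedBall_zero_iff.2 le_rfl : y ∈ Metric.closedBall (0 : E₁) ‖y‖)
  rw [h0, sub_zero, sub_zero] at h2
  refine h2.trans (le_of_eq ?_)
  rw [norm_pow, norm_norm, pow_succ]
  ring

end star



section complex

/-- second derivatives -/
theorem ib_snd {F₁ : Type} [NormedAddCommGroup F₁] [NormedSpace ℝ F₁] [CompleteSpace F₁] {g : ℂ → F₁} {w : ℂ}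
    (hg : AnalyticAt ℝ g w) (a b : ℂ) :
    fderiv ℝ (fun z => fderiv ℝ g z a) w b = fderiv ℝ (fderiv ℝ g) w b a := by
  rw [fderiv_clm_apply hg.fderiv.differentiableAt (differentiableAt_const a)]
  simp

theorem ib_comm {F₁ : Type} [NormedAddCommGroup F₁] [NormedSpace ℝ F₁] [CompleteSpace F₁] {g : ℂ → F₁} {w : ℂ}
    (hg : AnalyticAt ℝ g w) (a b : ℂ) :
    fderiv ℝ (fun z => fderiv ℝ g z a) w b = fderiv ℝ (fun z => fderiv ℝ g z b) w a := by
  rw [ib_snd hg, ib_snd hg]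
  have h : ContDiffAt ℝ ω g w := hg.contDiffAt
  exact (h.isSymmSndFDerivAt (by simp)).eq b a

theorem ib_dir {F₁ : Type} [NormedAddCommGroup F₁] [NormedSpace ℝ F₁] [CompleteSpace F₁] {g : ℂ → F₁} {w : ℂ}
    (hg : AnalyticAt ℝ g w) (a : ℂ) : AnalyticAt ℝ (fun z => fderiv ℝ g z a) w :=
  ((ContinuousLinearMap.apply ℝ F₁ a).analyticAt _).comp hg.fderiv

/-- bound for the derivative by the two partial derivatives -/
theorem ib_fderiv {F₁ : Type} [NormedAddCommGroup F₁] [NormedSpace ℝ F₁] {g : ℂ → F₁} {n : ℕ}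
    (h1 : (fun w => fderiv ℝ g w 1) =O[𝓝 0] fun y : ℂ => ‖y‖ ^ n)
    (h2 : (fun w => fderiv ℝ g w Complex.I) =O[𝓝 0] fun y : ℂ => ‖y‖ ^ n) :
    (fderiv ℝ g) =O[𝓝 0] fun y => ‖y‖ ^ n := by
  have h3 : (fderiv ℝ g) =O[𝓝 0] fun w => ‖fderiv ℝ g w 1‖ + ‖fderiv ℝ g w Complex.I‖ := by
    refine IsBigO.of_bound 1 (Filter.Eventually.of_forall fun w => ?_)
    rw [one_mul, Real.norm_of_nonneg (by positivity)]
    refine ContinuousLinearMap.opNorm_le_bound _ (by positivity) fun v => ?_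
    have h4 : v = v.re • (1 : ℂ) + v.im • Complex.I := by
      rw [Complex.real_smul, Complex.real_smul, mul_one]
      exact (Complex.re_add_im v).symm
    have h5 : fderiv ℝ g w v = v.re • fderiv ℝ g w 1 + v.im • fderiv ℝ g w Complex.I := by
      conv_lhs => rw [h4]
      rw [map_add, map_smul, map_smul]
    rw [h5]
    refine (norm_add_le _ _).trans ?_
    rw [norm_smul, norm_smul]
    have h6 : ‖v.re‖ ≤ ‖v‖ := Complex.abs_re_le_norm v
    have h7 : ‖v.im‖ ≤ ‖v‖ := Complex.abs_im_le_norm v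
    calc ‖v.re‖ * ‖fderiv ℝ g w 1‖ + ‖v.im‖ * ‖fderiv ℝ g w Complex.I‖
        ≤ ‖v‖ * ‖fderiv ℝ g w 1‖ + ‖v‖ * ‖fderiv ℝ g w Complex.I‖ := by gcongr
      _ = (‖fderiv ℝ g w 1‖ + ‖fderiv ℝ g w Complex.I‖) * ‖v‖ := by ring
  exact h3.trans (h1.norm_left.add h2.norm_left)

/-- the two Wirtinger operators, without the factor one half -/
noncomputable def wd (g : ℂ → ℂ) (w : ℂ) : ℂ := fderiv ℝ g w 1 - Complex.I * fderiv ℝ g w Complex.I

noncomputable def wb (g : ℂ → ℂ) (w : ℂ) : ℂ := fderiv ℝ g w 1 + Complex.I * fderiv ℝ g w Complex.I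

theorem ib_wd_an {g : ℂ → ℂ} {w : ℂ} (hg : AnalyticAt ℝ g w) : AnalyticAt ℝ (wd g) w :=
  (ib_dir hg 1).sub (analyticAt_const.mul (ib_dir hg Complex.I))

theorem ib_wb_an {g : ℂ → ℂ} {w : ℂ} (hg : AnalyticAt ℝ g w) : AnalyticAt ℝ (wb g) w :=
  (ib_dir hg 1).add (analyticAt_const.mul (ib_dir hg Complex.I))

theorem ib_wd_O {g : ℂ → ℂ} {n : ℕ} (h : (fderiv ℝ g) =O[𝓝 0] fun y => ‖y‖ ^ n) :
    (wd g) =O[𝓝 0] fun y => ‖y‖ ^ n := by
  have h1 : ∀ a : ℂ, (fun w => fderiv ℝ g w a) =O[𝓝 0] fun y : ℂ => ‖y‖ ^ n := by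
    intro a
    refine IsBigO.trans (IsBigO.of_bound ‖a‖ (Filter.Eventually.of_forall fun w => ?_)) h
    rw [mul_comm]
    exact (fderiv ℝ g w).le_opNorm a
  exact (h1 1).sub ((h1 Complex.I).const_mul_left Complex.I)

theorem ib_wb_O {g : ℂ → ℂ} {n : ℕ} (h : (fderiv ℝ g) =O[𝓝 0] fun y => ‖y‖ ^ n) :
    (wb g) =O[𝓝 0] fun y => ‖y‖ ^ n := by
  have h1 : ∀ a : ℂ, (fun w => fderiv ℝ g w a) =O[𝓝 0] fun y : ℂ => ‖y‖ ^ n := by
    intro a
    refine IsBigO.trans (IsBigO.of_bound ‖a‖ (Filter.Eventually.of_forall fun w => ?_)) h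
    rw [mul_comm]
    exact (fderiv ℝ g w).le_opNorm a
  exact (h1 1).add ((h1 Complex.I).const_mul_left Complex.I)

theorem ib_fd_of {g : ℂ → ℂ} {n : ℕ} (h1 : (wd g) =O[𝓝 0] fun y => ‖y‖ ^ n)
    (h2 : (wb g) =O[𝓝 0] fun y => ‖y‖ ^ n) : (fderiv ℝ g) =O[𝓝 0] fun y => ‖y‖ ^ n := by
  refine ib_fderiv ?_ ?_
  · have h3 : (fun w => fderiv ℝ g w 1) = fun w => (1 / 2 : ℂ) * (wd g w + wb g w) := by
      funext w
      rw [wd, wb]
      ring
    rw [h3]
    exact (h1.add h2).const_mul_left _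
  · have h3 : (fun w => fderiv ℝ g w Complex.I) = fun w => (Complex.I / 2 : ℂ) * (wd g w - wb g w) := by
      funext w
      rw [wd, wb]
      linear_combination (fderiv ℝ g w Complex.I) * Complex.I_mul_I
    rw [h3]
    exact (h1.sub h2).const_mul_left _

theorem ib_fderiv_wd {g : ℂ → ℂ} {w : ℂ} (hg : AnalyticAt ℝ g w) (b : ℂ) :
    fderiv ℝ (wd g) w b = fderiv ℝ (fun z => fderiv ℝ g z 1) w b - Complex.I * fderiv ℝ (fun z => fderiv ℝ g z Complex.I) w b := by
  have h1 := (ib_dir hg 1).differentiableAt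
  have h2 := (ib_dir hg Complex.I).differentiableAt
  have h3 : HasFDerivAt (wd g) (fderiv ℝ (fun z => fderiv ℝ g z 1) w -
      Complex.I • fderiv ℝ (fun z => fderiv ℝ g z Complex.I) w) w :=
    h1.hasFDerivAt.sub (h2.hasFDerivAt.const_mul Complex.I)
  rw [h3.fderiv]
  rfl

theorem ib_fderiv_wb {g : ℂ → ℂ} {w : ℂ} (hg : AnalyticAt ℝ g w) (b : ℂ) :
    fderiv ℝ (wb g) w b = fderiv ℝ (fun z => fderiv ℝ g z 1) w b + Complex.I * fderiv ℝ (fun z => fderiv ℝ g z Complex.I) w b := by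
  have h1 := (ib_dir hg 1).differentiableAt
  have h2 := (ib_dir hg Complex.I).differentiableAt
  have h3 : HasFDerivAt (wb g) (fderiv ℝ (fun z => fderiv ℝ g z 1) w +
      Complex.I • fderiv ℝ (fun z => fderiv ℝ g z Complex.I) w) w :=
    h1.hasFDerivAt.add (h2.hasFDerivAt.const_mul Complex.I)
  rw [h3.fderiv]
  rfl

theorem ib_wb_wd {g : ℂ → ℂ} {w : ℂ} (hg : AnalyticAt ℝ g w) :
    wb (wd g) w = fderiv ℝ (fun z => fderiv ℝ g z 1) w 1 + fderiv ℝ (fun z => fderiv ℝ g z Complex.I) w Complex.I := by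
  rw [wb, ib_fderiv_wd hg, ib_fderiv_wd hg, ib_comm hg 1 Complex.I]
  linear_combination (-fderiv ℝ (fun z => fderiv ℝ g z Complex.I) w Complex.I) * Complex.I_mul_I

theorem ib_wd_wb {g : ℂ → ℂ} {w : ℂ} (hg : AnalyticAt ℝ g w) :
    wd (wb g) w = fderiv ℝ (fun z => fderiv ℝ g z 1) w 1 + fderiv ℝ (fun z => fderiv ℝ g z Complex.I) w Complex.I := by
  rw [wd, ib_fderiv_wb hg, ib_fderiv_wb hg, ib_comm hg 1 Complex.I]
  linear_combination (-fderiv ℝ (fun z => fderiv ℝ g z Complex.I) w Complex.I) * Complex.I_mul_I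

theorem ib_zero {F₁ : Type} [NormedAddCommGroup F₁] {g : ℂ → F₁} {n : ℕ} (h : g =O[𝓝 0] fun y => ‖y‖ ^ (n + 1)) :
    g 0 = 0 := by
  obtain ⟨C, hC⟩ := h.bound
  have h1 := hC.self_of_nhds
  simpa using h1

theorem ib_main (k : ℕ) : ∀ u : ℂ → ℂ, AnalyticAt ℝ u 0 → u =O[𝓝 0] (fun y => ‖y‖ ^ k) →
    (wb u) =O[𝓝 0] (fun y => ‖y‖ ^ k) → ∃ c : ℂ, (fun w => u w - c * w ^ k) =O[𝓝 0] fun y => ‖y‖ ^ (k + 1) := by
  induction k with
  | zero =>
    intro u hu _ _
    refine ⟨u 0, ?_⟩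
    have h1 := hu.differentiableAt.isBigO_sub
    simp only [sub_zero] at h1
    simpa using h1.norm_right
  | succ k ih =>
    intro u hu h1 h2
    have hbar : wb (wd u) =ᶠ[𝓝 0] wd (wb u) := by
      filter_upwards [hu.eventually_analyticAt] with w hw
      rw [ib_wb_wd hw, ib_wd_wb hw]
    have h3 : (wb (wd u)) =O[𝓝 0] fun y => ‖y‖ ^ k :=
      hbar.trans_isBigO (ib_wd_O (ib_star (ib_wb_an hu) h2))
    obtain ⟨c', hc'⟩ := ih (wd u) (ib_wd_an hu) (ib_wd_O (ib_star hu h1)) h3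
    obtain ⟨c, hc⟩ : ∃ c : ℂ, 2 * (k + 1) * c = c' := ⟨c' / (2 * (k + 1)), by
      field_simp⟩
    refine ⟨c, ?_⟩
    obtain ⟨e, he⟩ : ∃ e : ℂ → ℂ, e = fun w => u w - c * w ^ (k + 1) := ⟨_, rfl⟩
    have hpow : ∀ w : ℂ, HasFDerivAt (fun w : ℂ => c * w ^ (k + 1))
        (c • (((k + 1 : ℕ) : ℂ) * w ^ k) • (ContinuousLinearMap.id ℝ ℂ)) w := by
      intro w
      have h4 : HasFDerivAt (fun w : ℂ => w ^ (k + 1)) ((((k + 1 : ℕ) : ℂ) * w ^ k) • (ContinuousLinearMap.id ℝ ℂ)) w := by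
        have h5 := ((hasDerivAt_pow (k + 1) w).hasFDerivAt.restrictScalars ℝ)
        refine h5.congr_fderiv (ContinuousLinearMap.ext fun v => ?_)
        simp [mul_comm]
      exact h4.const_mul c
    have hed : ∀ᶠ w in 𝓝 (0 : ℂ), ∀ a : ℂ, fderiv ℝ e w a = fderiv ℝ u w a - c * ((((k + 1 : ℕ) : ℂ) * w ^ k) * a) := by
      filter_upwards [hu.eventually_analyticAt] with w hw
      intro a
      rw [he, (hw.differentiableAt.hasFDerivAt.fun_sub (hpow w)).fderiv]
      rfl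
    have hea : AnalyticAt ℝ e 0 := by
      rw [he]
      exact hu.sub (analyticAt_const.mul (analyticAt_id.pow (k + 1)))
    have h5 : wd e =ᶠ[𝓝 0] fun w => wd u w - c' * w ^ k := by
      filter_upwards [hed] with w hw
      rw [wd, wd, hw 1, hw Complex.I, ← hc]
      push_cast
      linear_combination (c * ((k : ℂ) + 1) * w ^ k) * Complex.I_mul_I
    have h6 : wb e =ᶠ[𝓝 0] wb u := by
      filter_upwards [hed] with w hw
      rw [wb, wb, hw 1, hw Complex.I]
      push_cast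
      linear_combination (-c * ((k : ℂ) + 1) * w ^ k) * Complex.I_mul_I
    have h7 := ib_fd_of (h5.trans_isBigO hc') (h6.trans_isBigO h2)
    have h8 : e 0 = 0 := by
      rw [he]
      simp [ib_zero h1]
    have h9 := ib_mvt (hea.eventually_analyticAt.mono fun w hw => hw.differentiableAt) h8 h7
    rw [he] at h9
    exact h9

end complex

section final

theorem ib_order {f : ℂ → ℝ} {r : ℝ} (hr : 0 < r) (hf : AnalyticOnNhd ℝ f (Metric.ball 0 r))
    (hne : ∃ w ∈ Metric.ball (0 : ℂ) r, f w ≠ 0) : ∃ m : ℕ, ¬ f =O[𝓝 0] fun y => ‖y‖ ^ (m + 1) := by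
  by_contra hcon
  push Not at hcon
  obtain ⟨w, hw, hw0⟩ := hne
  obtain ⟨p, R, hp⟩ := hf 0 (Metric.mem_ball_self hr)
  have h1 : f =ᶠ[𝓝 0] 0 := by
    filter_upwards [Metric.eball_mem_nhds (0 : ℂ) hp.r_pos] with y hy
    have h2 := hp.hasSum hy
    have h3 : (fun n => p n fun _ : Fin n => y) = fun _ => 0 := by
      funext n
      exact ib_diag hp.hasFPowerSeriesAt (hcon n) n le_rfl y
    rw [h3, zero_add] at h2
    exact h2.unique hasSum_zero
  exact hw0 (hf.eqOn_zero_of_preconnected_of_eventuallyEq_zero (convex_ball 0 r).isPreconnected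
    (Metric.mem_ball_self hr) h1 hw)

theorem statB : StatB := by
  intro f V r hr hf hV hlap hne
  have h0m : (0 : ℂ) ∈ Metric.ball (0 : ℂ) r := Metric.mem_ball_self hr
  have hf0 : AnalyticAt ℝ f 0 := hf 0 h0m
  classical
  have hex := ib_order hr hf hne
  obtain ⟨m, hm, hmin⟩ : ∃ m, (¬ f =O[𝓝 0] fun y => ‖y‖ ^ (m + 1)) ∧
      ∀ k, k < m → f =O[𝓝 0] fun y => ‖y‖ ^ (k + 1) :=
    ⟨Nat.find hex, Nat.find_spec hex, fun k hk => not_not.1 (Nat.find_min hex hk)⟩
  -- it is enough to have an eventual statement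
  suffices hev : ∀ᶠ w in 𝓝 (0 : ℂ), w ≠ 0 → ¬ (f w = 0 ∧ fderiv ℝ f w = 0) by
    obtain ⟨ρ, hρ, h1⟩ := Metric.eventually_nhds_iff_ball.1 hev
    exact ⟨ρ, hρ, fun w hw hwρ => h1 w (mem_ball_zero_iff.2 hwρ) hw⟩
  rcases m with _ | k
  · -- `f 0 ≠ 0`
    have h1 : f 0 ≠ 0 := by
      intro h2
      apply hm
      have h3 := hf0.differentiableAt.isBigO_sub
      simp only [h2, sub_zero] at h3
      simpa using h3.norm_right
    filter_upwards [hf0.continuousAt.eventually_ne h1] with w hw _ h2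
    exact hw h2.1
  · have hfk := hmin k (Nat.lt_succ_self k)
    have hfr0 : f 0 = 0 := ib_zero hfk
    -- the complex valued function
    obtain ⟨g, hg⟩ : ∃ g : ℂ → ℂ, g = fun w => (f w : ℂ) := ⟨_, rfl⟩
    have hga : ∀ w, AnalyticAt ℝ f w → AnalyticAt ℝ g w := by
      intro w hw
      rw [hg]
      exact (Complex.ofRealCLM.analyticAt _).comp hw
    have hgd : ∀ w, DifferentiableAt ℝ f w → ∀ a, fderiv ℝ g w a = ((fderiv ℝ f w a : ℝ) : ℂ) := by
      intro w hw a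
      have h1 : HasFDerivAt g (Complex.ofRealCLM.comp (fderiv ℝ f w)) w := by
        rw [hg]
        exact Complex.ofRealCLM.hasFDerivAt.comp w hw.hasFDerivAt
      rw [h1.fderiv]
      rfl
    have hgO : g =O[𝓝 0] fun y => ‖y‖ ^ (k + 1) := by
      have h1 : g =O[𝓝 0] f := by
        rw [hg]
        refine IsBigO.of_bound 1 (Filter.Eventually.of_forall fun w => ?_)
        rw [one_mul, Complex.norm_real]
      exact h1.trans hfk
    have hev : ∀ᶠ w in 𝓝 (0 : ℂ), AnalyticAt ℝ f w := hf0.eventually_analyticAt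
    -- the Laplacian of `g`
    have hlap2 : (wb (wd g)) =O[𝓝 0] fun y => ‖y‖ ^ k := by
      have h1 : wb (wd g) =ᶠ[𝓝 0] fun w => ((V w * f w : ℝ) : ℂ) := by
        filter_upwards [hev.eventually_nhds, Metric.ball_mem_nhds (0 : ℂ) hr] with w hw hwr
        have hw0 := hw.self_of_nhds
        rw [ib_wb_wd (hga w hw0), ← hlap w hwr, lap2]
        have h2 : ∀ a : ℂ, fderiv ℝ (fun z => fderiv ℝ g z a) w a =
            ((fderiv ℝ (fun z => fderiv ℝ f z a) w a : ℝ) : ℂ) := by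
          intro a
          have h3 : (fun z => fderiv ℝ g z a) =ᶠ[𝓝 w] fun z => ((fderiv ℝ f z a : ℝ) : ℂ) := by
            filter_upwards [hw] with z hz
            exact hgd z hz.differentiableAt a
          rw [h3.fderiv_eq]
          have h4 : HasFDerivAt (fun z => ((fderiv ℝ f z a : ℝ) : ℂ))
              (Complex.ofRealCLM.comp (fderiv ℝ (fun z => fderiv ℝ f z a) w)) w :=
            Complex.ofRealCLM.hasFDerivAt.comp w (ib_dir hw0 a).differentiableAt.hasFDerivAt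
          rw [h4.fderiv]
          rfl
        rw [h2, h2]
        push_cast
        rfl
      refine h1.trans_isBigO ?_
      have h2 : (fun w => ((V w * f w : ℝ) : ℂ)) =O[𝓝 0] f := by
        have h3 : ContinuousAt V 0 := hV.continuousAt (Metric.ball_mem_nhds 0 hr)
        have h4 : ∀ᶠ w in 𝓝 (0 : ℂ), ‖V w‖ < ‖V 0‖ + 1 :=
          h3.norm.eventually_lt_const (lt_add_one _)
        refine IsBigO.of_bound (‖V 0‖ + 1) ?_
        filter_upwards [h4] with w hw
        rw [Complex.norm_real, norm_mul]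
        gcongr
      exact h2.trans (ib_mono (Nat.le_succ k) hfk)
    obtain ⟨c, hc⟩ := ib_main k (wd g) (ib_wd_an (hga 0 hf0)) (ib_wd_O (ib_star (hga 0 hf0) hgO)) hlap2
    -- `c ≠ 0`
    have hc0 : c ≠ 0 := by
      intro h1
      rw [h1] at hc
      simp only [zero_mul, sub_zero] at hc
      apply hm
      refine ib_mvt (hev.mono fun w hw => hw.differentiableAt) hfr0 ?_
      have hre : (fun w => fderiv ℝ f w 1) =O[𝓝 0] wd g := by
        refine IsBigO.of_bound 1 ?_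
        filter_upwards [hev] with w hw
        have h2 : fderiv ℝ f w 1 = (wd g w).re := by
          rw [wd, hgd w hw.differentiableAt, hgd w hw.differentiableAt]
          simp
        rw [h2, one_mul]
        exact Complex.abs_re_le_norm _
      have him : (fun w => fderiv ℝ f w Complex.I) =O[𝓝 0] wd g := by
        refine IsBigO.of_bound 1 ?_
        filter_upwards [hev] with w hw
        have h2 : fderiv ℝ f w Complex.I = -(wd g w).im := by
          rw [wd, hgd w hw.differentiableAt, hgd w hw.differentiableAt]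
          simp
        rw [h2, one_mul, norm_neg]
        exact Complex.abs_im_le_norm _
      exact ib_fderiv (hre.trans hc) (him.trans hc)
    -- the end
    obtain ⟨C, hC⟩ := hc.bound
    have hC1 : ∀ᶠ w in 𝓝 (0 : ℂ), (|C| + 1) * ‖w‖ < ‖c‖ := by
      have h1 : Tendsto (fun w : ℂ => (|C| + 1) * ‖w‖) (𝓝 0) (𝓝 ((|C| + 1) * ‖(0 : ℂ)‖)) :=
        (continuous_const.mul continuous_norm).tendsto 0
      rw [norm_zero, mul_zero] at h1
      exact h1.eventually_lt_const (norm_pos_iff.2 hc0)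
    filter_upwards [hC, hC1, hev] with w h1 h2 h3 hw0 h4
    have h5 : wd g w = 0 := by
      rw [wd, hgd w h3.differentiableAt, hgd w h3.differentiableAt, h4.2]
      simp
    rw [h5, zero_sub, norm_neg, norm_mul, norm_pow, norm_pow, norm_norm, pow_succ] at h1
    have h6 : 0 < ‖w‖ ^ k := pow_pos (norm_pos_iff.2 hw0) k
    have h7 : C ≤ |C| := le_abs_self C
    have h8 : 0 < ‖w‖ := norm_pos_iff.2 hw0
    have h9 : ‖c‖ * ‖w‖ ^ k ≤ (|C| * ‖w‖) * ‖w‖ ^ k := by
      calc ‖c‖ * ‖w‖ ^ k ≤ C * (‖w‖ ^ k * ‖w‖) := h1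
        _ = (C * ‖w‖) * ‖w‖ ^ k := by ring
        _ ≤ (|C| * ‖w‖) * ‖w‖ ^ k := by gcongr
    have h10 := le_of_mul_le_mul_right h9 h6
    nlinarith

end final

end Pool.Agent.Helper99.RS
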