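import Mathlib

/-!
# RT, leaf ISO-A, planar half: isothermal coordinates from closed conjugate forms

`X : U → ℝ ^ 3` is an immersion of a convex planar open set with unit normal `n`; the forms `θ k v = (n × dX v) k` are closed.
Then `X` is the real part of a holomorphic null curve in a coordinate near `p`.
-/

set_option autoImplicit false

open Filter Asymptotics
open scoped ContDiff Topology

namespace Pool.Agent.Helper99.RS

/-- the conjugate forms -/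
noncomputable def tht (n : Fin 3 → ℂ → ℝ) (D : Fin 3 → ℂ → (ℂ →L[ℝ] ℝ)) (k : Fin 3) (w : ℂ) : ℂ →L[ℝ] ℝ :=
  n (k + 1) w • D (k + 2) w - n (k + 2) w • D (k + 1) w

theorem tht_apply (n : Fin 3 → ℂ → ℝ) (D : Fin 3 → ℂ → (ℂ →L[ℝ] ℝ)) (k : Fin 3) (w v : ℂ) :
    tht n D k w v = n (k + 1) w * D (k + 2) w v - n (k + 2) w * D (k + 1) w v := rfl

/-- algebra: a vector in the plane orthogonal to `n` is determined by two coordinates -/
theorem ip_alg {n e : Fin 3 → ℝ} (hn : ∑ k, n k ^ 2 = 1) (he : ∑ k, n k * e k = 0) (a : Fin 3)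
    (ha : n a ^ 2 < 1) (h1 : e a = 0) (h2 : n (a + 1) * e (a + 2) - n (a + 2) * e (a + 1) = 0) :
    ∀ k, e k = 0 := by
  have key : (e 0 ^ 2 + e 1 ^ 2 + e 2 ^ 2) * (1 - n a ^ 2) =
      e a ^ 2 + (n (a + 1) * e (a + 2) - n (a + 2) * e (a + 1)) ^ 2 := by
    rw [Fin.sum_univ_three] at hn he
    fin_cases a
    · change (e 0 ^ 2 + e 1 ^ 2 + e 2 ^ 2) * (1 - n 0 ^ 2) = e 0 ^ 2 + (n 1 * e 2 - n 2 * e 1) ^ 2
      linear_combination (-(e 1 ^ 2 + e 2 ^ 2)) * hn + (n 0 * e 0 + n 1 * e 1 + n 2 * e 2 - 2 * n 0 * e 0) * he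
    · change (e 0 ^ 2 + e 1 ^ 2 + e 2 ^ 2) * (1 - n 1 ^ 2) = e 1 ^ 2 + (n 2 * e 0 - n 0 * e 2) ^ 2
      linear_combination (-(e 2 ^ 2 + e 0 ^ 2)) * hn + (n 0 * e 0 + n 1 * e 1 + n 2 * e 2 - 2 * n 1 * e 1) * he
    · change (e 0 ^ 2 + e 1 ^ 2 + e 2 ^ 2) * (1 - n 2 ^ 2) = e 2 ^ 2 + (n 0 * e 1 - n 1 * e 0) ^ 2
      linear_combination (-(e 0 ^ 2 + e 1 ^ 2)) * hn + (n 0 * e 0 + n 1 * e 1 + n 2 * e 2 - 2 * n 2 * e 2) * he
  rw [h1, h2] at key
  have h3 : e 0 ^ 2 + e 1 ^ 2 + e 2 ^ 2 = 0 := by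
    have h4 : (1 - n a ^ 2) ≠ 0 := by
      intro h5
      linarith
    have h5 : (e 0 ^ 2 + e 1 ^ 2 + e 2 ^ 2) * (1 - n a ^ 2) = 0 := by
      rw [key]; ring
    exact (mul_eq_zero.1 h5).resolve_right h4
  intro k
  have h0 := sq_nonneg (e 0)
  have h1' := sq_nonneg (e 1)
  have h2' := sq_nonneg (e 2)
  fin_cases k
  · exact pow_eq_zero_iff (two_ne_zero) |>.1 (by change e 0 ^ 2 = 0; linarith)
  · exact pow_eq_zero_iff (two_ne_zero) |>.1 (by change e 1 ^ 2 = 0; linarith)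
  · exact pow_eq_zero_iff (two_ne_zero) |>.1 (by change e 2 ^ 2 = 0; linarith)

/-- the double cross product -/
theorem ip_double {n d : Fin 3 → ℝ} (hn : ∑ k, n k ^ 2 = 1) (hd : ∑ k, n k * d k = 0) (k : Fin 3) :
    n (k + 1) * (n (k + 2 + 1) * d (k + 2 + 2) - n (k + 2 + 2) * d (k + 2 + 1)) -
      n (k + 2) * (n (k + 1 + 1) * d (k + 1 + 2) - n (k + 1 + 2) * d (k + 1 + 1)) = -d k := by
  rw [Fin.sum_univ_three] at hn hd
  fin_cases k
  · change n 1 * (n 0 * d 1 - n 1 * d 0) - n 2 * (n 2 * d 0 - n 0 * d 2) = -d 0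
    linear_combination (n 0) * hd - (d 0) * hn
  · change n 2 * (n 1 * d 2 - n 2 * d 1) - n 0 * (n 0 * d 1 - n 1 * d 0) = -d 1
    linear_combination (n 1) * hd - (d 1) * hn
  · change n 0 * (n 2 * d 0 - n 0 * d 2) - n 1 * (n 1 * d 2 - n 2 * d 1) = -d 2
    linear_combination (n 2) * hd - (d 2) * hn

/-- the conformality relations -/
theorem ip_null {n d : Fin 3 → ℝ} (hn : ∑ k, n k ^ 2 = 1) (hd : ∑ k, n k * d k = 0) :
    ∑ k, (((d k : ℝ) : ℂ) + Complex.I * ((n (k + 1) * d (k + 2) - n (k + 2) * d (k + 1) : ℝ) : ℂ)) ^ 2 = 0 := by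
  rw [Fin.sum_univ_three] at hn hd
  rw [Fin.sum_univ_three]
  have h1 : d 0 ^ 2 + d 1 ^ 2 + d 2 ^ 2 = (n 1 * d 2 - n 2 * d 1) ^ 2 + (n 2 * d 0 - n 0 * d 2) ^ 2 + (n 0 * d 1 - n 1 * d 0) ^ 2 := by
    linear_combination (-(d 0 ^ 2 + d 1 ^ 2 + d 2 ^ 2)) * hn + (n 0 * d 0 + n 1 * d 1 + n 2 * d 2) * hd
  have h1c : ((d 0 : ℝ) : ℂ) ^ 2 + (d 1 : ℂ) ^ 2 + (d 2 : ℂ) ^ 2 = ((n 1 : ℂ) * d 2 - n 2 * d 1) ^ 2 + ((n 2 : ℂ) * d 0 - n 0 * d 2) ^ 2 +
      ((n 0 : ℂ) * d 1 - n 1 * d 0) ^ 2 := by exact_mod_cast h1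
  change (((d 0 : ℝ) : ℂ) + Complex.I * ((n 1 * d 2 - n 2 * d 1 : ℝ) : ℂ)) ^ 2 + (((d 1 : ℝ) : ℂ) + Complex.I * ((n 2 * d 0 - n 0 * d 2 : ℝ) : ℂ)) ^ 2 +
    (((d 2 : ℝ) : ℂ) + Complex.I * ((n 0 * d 1 - n 1 * d 0 : ℝ) : ℂ)) ^ 2 = 0
  push_cast
  linear_combination h1c + (((n 1 : ℂ) * d 2 - n 2 * d 1) ^ 2 + ((n 2 : ℂ) * d 0 - n 0 * d 2) ^ 2 +
      ((n 0 : ℂ) * d 1 - n 1 * d 0) ^ 2) * Complex.I_mul_I

theorem iso_plane {U : Set ℂ} (hU : IsOpen U) (hc : Convex ℝ U) {p : ℂ} (hp : p ∈ U)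
    {X : Fin 3 → ℂ → ℝ} {D : Fin 3 → ℂ → (ℂ →L[ℝ] ℝ)} (hX : ∀ k, ∀ w ∈ U, HasFDerivAt (X k) (D k w) w)
    (hD : ∀ k, ContinuousOn (D k) U) {n : Fin 3 → ℂ → ℝ} (hn : ∀ k, ContinuousOn (n k) U)
    (hn1 : ∀ w ∈ U, ∑ k, n k w ^ 2 = 1) (hnD : ∀ w ∈ U, ∀ v, ∑ k, n k w * D k w v = 0)
    (hinj : ∀ w ∈ U, ∀ v, (∀ k, D k w v = 0) → v = 0)
    (hθ : ∀ k, DifferentiableOn ℝ (tht n D k) U)
    (hcl : ∀ k, ∀ w ∈ U, ∀ u v, fderiv ℝ (tht n D k) w u v = fderiv ℝ (tht n D k) w v u) :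
    ∃ (r : ℝ) (Z : ℂ → ℂ) (G : Fin 3 → ℂ → ℂ), 0 < r ∧ Z 0 = p ∧ (∀ w ∈ Metric.ball (0 : ℂ) r, Z w ∈ U) ∧
      (∀ k, DifferentiableOn ℂ (G k) (Metric.ball 0 r)) ∧
      (∀ k, ∀ w ∈ Metric.ball (0 : ℂ) r, (G k w).re = X k (Z w)) ∧
      (∀ w ∈ Metric.ball (0 : ℂ) r, ∑ k, deriv (G k) w ^ 2 = 0) ∧
      (∀ w ∈ Metric.ball (0 : ℂ) r, ∃ k, deriv (G k) w ≠ 0) ∧
      ∀ ρ : ℝ, 0 < ρ → ρ ≤ r → ∃ V : Set ℂ, IsOpen V ∧ p ∈ V ∧ ∀ q ∈ V, ∃ w ∈ Metric.ball (0 : ℂ) ρ, Z w = q := by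
  choose Y hY using fun k => hc.exists_forall_hasFDerivAt_of_fderiv_symmetric hU (hθ k) (hcl k)
  obtain ⟨a, ha⟩ : ∃ a, n a p ^ 2 < 1 := by
    by_contra hcon
    push Not at hcon
    have h1 := hn1 p hp
    rw [Fin.sum_univ_three] at h1
    have := hcon 0
    have := hcon 1
    have := hcon 2
    linarith
  obtain ⟨dZ, hdZ⟩ : ∃ dZ : Fin 3 → ℂ → (ℂ →L[ℝ] ℂ), ∀ k w, dZ k w =
      Complex.ofRealCLM.comp (D k w) + Complex.I • Complex.ofRealCLM.comp (tht n D k w) := ⟨_, fun _ _ => rfl⟩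
  have hdZa : ∀ k w v, dZ k w v = ((D k w v : ℝ) : ℂ) + Complex.I * ((tht n D k w v : ℝ) : ℂ) := by
    intro k w v
    rw [hdZ]
    rfl
  obtain ⟨Zk, hZk⟩ : ∃ Zk : Fin 3 → ℂ → ℂ, ∀ k w, Zk k w = ((X k w : ℝ) : ℂ) + Complex.I * ((Y k w : ℝ) : ℂ) :=
    ⟨_, fun _ _ => rfl⟩
  have hZd : ∀ k, ∀ w ∈ U, HasFDerivAt (Zk k) (dZ k w) w := by
    intro k w hw
    have h1 : HasFDerivAt (fun w => ((X k w : ℝ) : ℂ)) (Complex.ofRealCLM.comp (D k w)) w :=
      Complex.ofRealCLM.hasFDerivAt.comp w (hX k w hw)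
    have h2 : HasFDerivAt (fun w => ((Y k w : ℝ) : ℂ)) (Complex.ofRealCLM.comp (tht n D k w)) w :=
      Complex.ofRealCLM.hasFDerivAt.comp w (hY k w hw)
    have h3 := h1.fun_add (h2.const_mul Complex.I)
    rw [hdZ]
    have h4 : Zk k = fun w => ((X k w : ℝ) : ℂ) + Complex.I * ((Y k w : ℝ) : ℂ) := funext (hZk k)
    rw [h4]
    exact h3
  obtain ⟨ζ, hζ⟩ : ∃ ζ : ℂ → ℂ, ζ = fun w => Zk a w - Zk a p := ⟨_, rfl⟩
  have hζd : ∀ w ∈ U, HasFDerivAt ζ (dZ a w) w := by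
    intro w hw
    rw [hζ]
    exact (hZd a w hw).sub_const _
  have hζp : ζ p = 0 := by rw [hζ]; exact sub_self _
  obtain ⟨S, hS⟩ : ∃ S : Set ℂ, S = U ∩ (n a) ⁻¹' {x : ℝ | x ^ 2 < 1} := ⟨_, rfl⟩
  have hSo : IsOpen S := by
    rw [hS]
    exact (hn a).isOpen_inter_preimage hU (isOpen_lt (continuous_pow 2) continuous_const)
  have hSU : S ⊆ U := by rw [hS]; exact Set.inter_subset_left
  have hSa : ∀ w ∈ S, n a w ^ 2 < 1 := by rw [hS]; exact fun w hw => hw.2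
  have hpS : p ∈ S := by rw [hS]; exact ⟨hp, ha⟩
  have hinjS : ∀ w ∈ S, ∀ v, dZ a w v = 0 → v = 0 := by
    intro w hw v hv
    rw [hdZa] at hv
    have h1 : D a w v = 0 := by
      have := congrArg Complex.re hv
      simpa using this
    have h2 : tht n D a w v = 0 := by
      have := congrArg Complex.im hv
      simpa using this
    rw [tht_apply] at h2
    exact hinj w (hSU hw) v (ip_alg (n := fun k => n k w) (e := fun k => D k w v) (hn1 w (hSU hw)) (hnD w (hSU hw) v) a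
      (hSa w hw) h1 h2)
  have hL : ∀ w ∈ S, ∃ L : ℂ ≃L[ℝ] ℂ, (L : ℂ →L[ℝ] ℂ) = dZ a w := by
    intro w hw
    have hinj' : Function.Injective (dZ a w : ℂ →ₗ[ℝ] ℂ) := by
      rw [← LinearMap.ker_eq_bot, LinearMap.ker_eq_bot']
      exact fun v hv => hinjS w hw v hv
    exact ⟨(LinearEquiv.ofInjectiveEndo _ hinj').toContinuousLinearEquiv, ContinuousLinearMap.ext fun w => rfl⟩
  obtain ⟨Lp, hLp⟩ := hL p hpS
  have hstr : HasStrictFDerivAt ζ (Lp : ℂ →L[ℝ] ℂ) p := by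
    rw [hLp]
    refine hasStrictFDerivAt_of_hasFDerivAt_of_continuousAt
      (Filter.eventually_of_mem (hU.mem_nhds hp) fun w hw => hζd w hw) ?_
    have h1 : ∀ k, ContinuousAt (D k) p := fun k => (hD k).continuousAt (hU.mem_nhds hp)
    have h2 : ∀ k, ContinuousAt (n k) p := fun k => (hn k).continuousAt (hU.mem_nhds hp)
    have h3 : ContinuousAt (tht n D a) p :=
      ((h2 (a + 1)).smul (h1 (a + 2))).sub ((h2 (a + 2)).smul (h1 (a + 1)))
    have h4 : dZ a = fun w => Complex.ofRealCLM.comp (D a w) + Complex.I • Complex.ofRealCLM.comp (tht n D a w) :=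
      funext (hdZ a)
    rw [h4]
    exact (continuousAt_const.clm_comp (h1 a)).add ((continuousAt_const.clm_comp h3).const_smul Complex.I)
  obtain ⟨e, he, hpe⟩ : ∃ e : OpenPartialHomeomorph ℂ ℂ, (∀ w, e w = ζ w) ∧ p ∈ e.source :=
    ⟨hstr.toOpenPartialHomeomorph ζ, fun w => rfl, hstr.mem_toOpenPartialHomeomorph_source⟩
  have hep : e p = 0 := by rw [he, hζp]
  have h0t : (0 : ℂ) ∈ e.target := by rw [← hep]; exact e.map_source hpe
  have he0 : e.symm 0 = p := by rw [← hep]; exact e.left_inv hpe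
  obtain ⟨r, hr, hball⟩ : ∃ r : ℝ, 0 < r ∧ ∀ w ∈ Metric.ball (0 : ℂ) r, w ∈ e.target ∧ e.symm w ∈ S := by
    have h1 : ∀ᶠ w in 𝓝 (0 : ℂ), w ∈ e.target := e.open_target.mem_nhds h0t
    have h2 : ContinuousAt e.symm 0 := e.continuousAt_symm h0t
    have h3 : ∀ᶠ w in 𝓝 (0 : ℂ), e.symm w ∈ S := by
      refine h2.eventually_mem ?_
      rw [he0]
      exact hSo.mem_nhds hpS
    obtain ⟨r, hr, h4⟩ := Metric.eventually_nhds_iff_ball.1 (h1.and h3)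
    exact ⟨r, hr, h4⟩
  obtain ⟨G, hG⟩ : ∃ G : Fin 3 → ℂ → ℂ, ∀ k, G k = fun w => Zk k (e.symm w) := ⟨_, fun _ => rfl⟩
  -- the derivative of `G k`
  have hmain : ∀ w ∈ Metric.ball (0 : ℂ) r, ∃ v : ℂ, dZ a (e.symm w) v = 1 ∧
      ∀ k, DifferentiableAt ℂ (G k) w ∧ deriv (G k) w = dZ k (e.symm w) v := by
    intro w hw
    obtain ⟨hwt, hwS⟩ := hball w hw
    obtain ⟨q, hq⟩ : ∃ q, q = e.symm w := ⟨_, rfl⟩
    rw [← hq] at hwS ⊢
    have hqU := hSU hwS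
    obtain ⟨L, hL⟩ := hL q hwS
    have h1 : HasFDerivAt e.symm (L.symm : ℂ →L[ℝ] ℂ) w := by
      refine e.hasFDerivAt_symm hwt ?_
      rw [← hq, hL]
      have h2 : ⇑e = ζ := funext he
      rw [h2]
      exact hζd q hqU
    have h2 : ∀ k, HasFDerivAt (G k) ((dZ k q).comp (L.symm : ℂ →L[ℝ] ℂ)) w := by
      intro k
      rw [hG k]
      have h3 : HasFDerivAt (Zk k) (dZ k q) (e.symm w) := by
        rw [← hq]
        exact hZd k q hqU
      exact h3.comp w h1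
    have hLv : ∀ x, dZ a q (L.symm x) = x := by
      intro x
      rw [← hL]
      exact L.apply_symm_apply x
    have hv1 := hLv 1
    have hv2 := hLv Complex.I
    obtain ⟨v, hv⟩ : ∃ v, v = L.symm 1 := ⟨_, rfl⟩
    obtain ⟨v', hv'⟩ : ∃ v', v' = L.symm Complex.I := ⟨_, rfl⟩
    rw [← hv] at hv1
    rw [← hv'] at hv2
    rw [hdZa] at hv1 hv2
    have a1 : D a q v = 1 := by simpa using congrArg Complex.re hv1
    have a2 : tht n D a q v = 0 := by simpa using congrArg Complex.im hv1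
    have a3 : D a q v' = 0 := by simpa using congrArg Complex.re hv2
    have a4 : tht n D a q v' = 1 := by simpa using congrArg Complex.im hv2
    have hd1 := ip_double (n := fun k => n k q) (d := fun k => D k q v) (hn1 q hqU) (hnD q hqU v)
    have hd2 := ip_double (n := fun k => n k q) (d := fun k => D k q v') (hn1 q hqU) (hnD q hqU v')
    have b1 : ∀ k, D k q v' + tht n D k q v = 0 := by
      refine ip_alg (n := fun k => n k q) (e := fun k => D k q v' + tht n D k q v) (hn1 q hqU) ?_ a (hSa q hwS) ?_ ?_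
      · have c1 := hnD q hqU v'
        have c2 : ∑ k, n k q * tht n D k q v = 0 := by
          rw [Fin.sum_univ_three]
          simp only [tht_apply]
          change n 0 q * (n 1 q * D 2 q v - n 2 q * D 1 q v) + n 1 q * (n 2 q * D 0 q v - n 0 q * D 2 q v) +
            n 2 q * (n 0 q * D 1 q v - n 1 q * D 0 q v) = 0
          ring
        simp only [mul_add, Finset.sum_add_distrib, c1, c2, add_zero]
      · rw [a3, a2, add_zero]
      · have c1 := hd1 a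
        have c2 := a4
        rw [tht_apply] at c2
        simp only [tht_apply]
        linear_combination c2 + c1 - a1
    have b2 : ∀ k, tht n D k q v' = D k q v := by
      intro k
      have c1 := hd1 k
      have c2 := b1 (k + 2)
      have c3 := b1 (k + 1)
      rw [tht_apply] at c2 c3 ⊢
      linear_combination (n (k + 1) q) * c2 - (n (k + 2) q) * c3 - c1
    have b3 : ∀ k, dZ k q v' = Complex.I • dZ k q v := by
      intro k
      rw [hdZa, hdZa, smul_eq_mul, b2 k]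
      have c1 : D k q v' = -tht n D k q v := by linarith [b1 k]
      rw [c1]
      push_cast
      linear_combination (-((tht n D k q v : ℝ) : ℂ)) * Complex.I_mul_I
    refine ⟨v, by rw [hdZa]; exact hv1, fun k => ?_⟩
    have h3 : DifferentiableAt ℂ (G k) w := by
      refine differentiableAt_complex_iff_differentiableAt_real.2 ⟨(h2 k).differentiableAt, ?_⟩
      rw [(h2 k).fderiv]
      change dZ k q (L.symm Complex.I) = Complex.I • dZ k q (L.symm 1)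
      rw [← hv, ← hv']
      exact b3 k
    refine ⟨h3, ?_⟩
    have h4 := h3.fderiv_restrictScalars ℝ
    rw [(h2 k).fderiv] at h4
    have h5 := congrArg (fun A : ℂ →L[ℝ] ℂ => A 1) h4
    change dZ k q (L.symm 1) = fderiv ℂ (G k) w 1 at h5
    rw [← hv] at h5
    rw [h5]
    exact (fderiv_apply_one_eq_deriv).symm
  refine ⟨r, e.symm, G, hr, he0, fun w hw => hSU (hball w hw).2, ?_, ?_, ?_, ?_, ?_⟩
  · intro k w hw
    obtain ⟨v, -, h1⟩ := hmain w hw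
    exact (h1 k).1.differentiableWithinAt
  · intro k w hw
    rw [hG k]
    dsimp only
    rw [hZk]
    simp
  · intro w hw
    obtain ⟨v, -, h1⟩ := hmain w hw
    have hqU := hSU (hball w hw).2
    simp only [fun k => (h1 k).2, hdZa, tht_apply]
    exact ip_null (n := fun k => n k (e.symm w)) (d := fun k => D k (e.symm w) v) (hn1 _ hqU) (hnD _ hqU v)
  · intro w hw
    obtain ⟨v, h0, h1⟩ := hmain w hw
    refine ⟨a, ?_⟩
    rw [(h1 a).2, h0]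
    exact one_ne_zero
  · intro ρ hρ _
    have h1 : IsOpen (e.source ∩ e ⁻¹' Metric.ball 0 ρ) := e.isOpen_inter_preimage Metric.isOpen_ball
    refine ⟨_, h1, Set.mem_inter hpe ?_, ?_⟩
    · rw [Set.mem_preimage, hep]
      exact Metric.mem_ball_self hρ
    · intro q hq
      exact ⟨e q, hq.2, e.left_inv hq.1⟩

end Pool.Agent.Helper99.RS
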